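import Pool.Agent.Helper62.DSH.StA

/-!
Project DSH (MP_087a81_gt), module RHO: algebra of derivations.
-/

set_option autoImplicit false

open Set Filter Topology MeasureTheory
open Helper62.LH Helper62.DSH
open scoped ContDiff ENNReal

noncomputable section

namespace Pool.Agent.Helper33.DSH

variable {n j : ℕ}

private def swp (k : Fin j) (p : (Fin j → Fin n) × Fin n) : (Fin j → Fin n) × Fin n :=
  (Function.update p.1 k p.2, p.1 k)

private lemma swp_inv (k : Fin j) : Function.Involutive (swp (n := n) k) := by
  rintro ⟨I, l⟩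
  simp [swp]

private lemma inv_sum (k : Fin j) (f : (Fin j → Fin n) → Fin n → ℝ) :
    ∑ I, ∑ l, f I l = ∑ I, ∑ l, f (Function.update I k l) (I k) := by
  have h1 : ∑ I, ∑ l, f I l = ∑ p : (Fin j → Fin n) × Fin n, f p.1 p.2 :=
    (Fintype.sum_prod_type' f).symm
  have h2 : ∑ I, ∑ l, f (Function.update I k l) (I k) =
      ∑ p : (Fin j → Fin n) × Fin n, f (swp k p).1 (swp k p).2 :=
    (Fintype.sum_prod_type' (fun I l => f (Function.update I k l) (I k))).symm
  rw [h1, h2]
  exact (Equiv.sum_comp (swp_inv (n := n) k).toPerm
    (fun p : (Fin j → Fin n) × Fin n => f p.1 p.2)).symm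

private lemma rho_rho (A B : Fin n → Fin n → ℝ) (t : Tn n j) (I : Fin j → Fin n) :
    rho A (rho B t) I =
      (∑ k, ∑ l, (∑ m, A (I k) m * B m l) * t (Function.update I k l)) +
      ∑ k, ∑ k', if k' = k then 0 else
        ∑ l, ∑ l', A (I k) l * B (I k') l' *
          t (Function.update (Function.update I k l) k' l') := by
  unfold rho
  rw [← Finset.sum_add_distrib]
  refine Finset.sum_congr rfl fun k _ => ?_
  have h1 : ∀ l, A (I k) l * ∑ k', ∑ l', B (Function.update I k l k') l' *
      t (Function.update (Function.update I k l) k' l') =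
      ∑ k', ∑ l', A (I k) l * B (Function.update I k l k') l' *
        t (Function.update (Function.update I k l) k' l') := by
    intro l
    rw [Finset.mul_sum]
    refine Finset.sum_congr rfl fun k' _ => ?_
    rw [Finset.mul_sum]
    refine Finset.sum_congr rfl fun l' _ => ?_
    ring
  simp_rw [h1]
  rw [Finset.sum_comm]
  have h2 : ∀ k', (∑ l, ∑ l', A (I k) l * B (Function.update I k l k') l' *
        t (Function.update (Function.update I k l) k' l')) =
      (if k' = k then ∑ l, (∑ m, A (I k) m * B m l) * t (Function.update I k l) else 0) +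
      (if k' = k then 0 else ∑ l, ∑ l', A (I k) l * B (I k') l' *
          t (Function.update (Function.update I k l) k' l')) := by
    intro k'
    by_cases hk : k' = k
    · subst hk
      rw [if_pos rfl, if_pos rfl, add_zero, Finset.sum_comm]
      refine Finset.sum_congr rfl fun l' _ => ?_
      rw [Finset.sum_mul]
      refine Finset.sum_congr rfl fun l _ => ?_
      rw [Function.update_self, Function.update_idem]
    · rw [if_neg hk, if_neg hk, zero_add]
      refine Finset.sum_congr rfl fun l _ => Finset.sum_congr rfl fun l' _ => ?_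
      rw [Function.update_of_ne hk]
  simp_rw [h2]
  rw [Finset.sum_add_distrib]
  congr 1
  rw [Finset.sum_ite_eq' Finset.univ k, if_pos (Finset.mem_univ _)]

private lemma off_symm (A B : Fin n → Fin n → ℝ) (t : Tn n j) (I : Fin j → Fin n) :
    (∑ k, ∑ k', if k' = k then 0 else
        ∑ l, ∑ l', A (I k) l * B (I k') l' *
          t (Function.update (Function.update I k l) k' l')) =
    ∑ k, ∑ k', if k' = k then 0 else
        ∑ l, ∑ l', B (I k) l * A (I k') l' *
          t (Function.update (Function.update I k l) k' l') := by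
  rw [Finset.sum_comm]
  refine Finset.sum_congr rfl fun k' _ => Finset.sum_congr rfl fun k _ => ?_
  by_cases hk : k' = k
  · rw [if_pos hk, if_pos hk.symm]
  · rw [if_neg hk, if_neg (fun h => hk h.symm), Finset.sum_comm]
    refine Finset.sum_congr rfl fun l' _ => Finset.sum_congr rfl fun l _ => ?_
    rw [Function.update_comm (Ne.symm hk) l l' I]
    ring

theorem hRho : TRho := by
  intro n j A B
  refine ⟨?_, ?_, ?_, ?_, ?_⟩
  · intro t
    funext I
    rw [Pi.sub_apply, rho_rho, rho_rho, off_symm A B, add_sub_add_right_eq_sub,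
      ← Finset.sum_sub_distrib]
    unfold rho
    refine Finset.sum_congr rfl fun k _ => ?_
    rw [← Finset.sum_sub_distrib]
    refine Finset.sum_congr rfl fun l _ => ?_
    rw [← sub_mul, ← Finset.sum_sub_distrib]
  · intro hA s t
    unfold ipt rho
    rw [← neg_div]
    congr 1
    have h1 : ∀ I : Fin j → Fin n, (∑ k, ∑ l, A (I k) l * s (Function.update I k l)) * t I =
        ∑ k, ∑ l, A (I k) l * s (Function.update I k l) * t I := by
      intro I
      rw [Finset.sum_mul]
      exact Finset.sum_congr rfl fun k _ => Finset.sum_mul _ _ _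
    have h2 : ∀ I : Fin j → Fin n, s I * (∑ k, ∑ l, A (I k) l * t (Function.update I k l)) =
        ∑ k, ∑ l, A (I k) l * s I * t (Function.update I k l) := by
      intro I
      rw [Finset.mul_sum]
      refine Finset.sum_congr rfl fun k _ => ?_
      rw [Finset.mul_sum]
      refine Finset.sum_congr rfl fun l _ => ?_
      ring
    simp_rw [h1, h2]
    have h3 : (∑ I : Fin j → Fin n, ∑ k, ∑ l, A (I k) l * s (Function.update I k l) * t I) =
        ∑ k, ∑ I : Fin j → Fin n, ∑ l, A (I k) l * s (Function.update I k l) * t I :=
      Finset.sum_comm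
    have h4 : (∑ I : Fin j → Fin n, ∑ k, ∑ l, A (I k) l * s I * t (Function.update I k l)) =
        ∑ k, ∑ I : Fin j → Fin n, ∑ l, A (I k) l * s I * t (Function.update I k l) :=
      Finset.sum_comm
    rw [h3, h4, ← Finset.sum_neg_distrib]
    refine Finset.sum_congr rfl fun k _ => ?_
    rw [inv_sum k (fun I l => A (I k) l * s (Function.update I k l) * t I),
      ← Finset.sum_neg_distrib]
    refine Finset.sum_congr rfl fun I _ => ?_
    rw [← Finset.sum_neg_distrib]
    refine Finset.sum_congr rfl fun l _ => ?_
    simp only [Function.update_self, Function.update_idem, Function.update_eq_self]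
    rw [hA l (I k)]
    ring
  · intro t ht I σ
    have h1 : ∀ (k : Fin j) (l : Fin n), Function.update (I ∘ σ) k l =
        Function.update I (σ k) l ∘ σ := by
      intro k l
      funext m
      by_cases hm : m = k
      · subst hm
        simp
      · rw [Function.update_of_ne hm, Function.comp_apply, Function.comp_apply,
          Function.update_of_ne (fun h => hm (σ.injective h))]
    unfold rho
    rw [Finset.mul_sum]
    rw [← Equiv.sum_comp σ (fun k => ((Equiv.Perm.sign σ : ℤ) : ℝ) *
      ∑ l, A (I k) l * t (Function.update I k l))]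
    refine Finset.sum_congr rfl fun k _ => ?_
    rw [Finset.mul_sum]
    refine Finset.sum_congr rfl fun l _ => ?_
    rw [h1, ht (Function.update I (σ k) l) σ, Function.comp_apply]
    ring
  · intro t b
    funext K
    have h2 : ct b (rho A t) K = rho A t (Fin.cons b K) := rfl
    have h3 : (rho A (ct b t) + ∑ c, A b c • ct c t) K =
        rho A (ct b t) K + ∑ c, A b c * t (Fin.cons c K) := by
      rw [Pi.add_apply, Finset.sum_apply]
      rfl
    rw [h2, h3]
    unfold rho ct
    rw [Fin.sum_univ_succ, add_comm]
    congr 1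
    · refine Finset.sum_congr rfl fun i _ => Finset.sum_congr rfl fun l _ => ?_
      rw [Fin.cons_succ, Fin.cons_update]
    · refine Finset.sum_congr rfl fun l _ => ?_
      rw [Fin.cons_zero, Fin.update_cons_zero]
  · intro C t hC
    have hsq : ∀ a b, (A a b) ^ 2 ≤ C ^ 2 := by
      intro a b
      have h0 := hC a b
      have h1 : 0 ≤ |A a b| := abs_nonneg _
      rw [← sq_abs (A a b)]
      exact pow_le_pow_left₀ h1 h0 2
    have hI : ∀ I : Fin j → Fin n, rho A t I * rho A t I ≤
        (j * n * C ^ 2) * ∑ k, ∑ l, t (Function.update I k l) ^ 2 := by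
      intro I
      unfold rho
      have e1 : (∑ k : Fin j, ∑ l : Fin n, A (I k) l * t (Function.update I k l)) =
          ∑ p : Fin j × Fin n, A (I p.1) p.2 * t (Function.update I p.1 p.2) :=
        (Fintype.sum_prod_type' (fun k l => A (I k) l * t (Function.update I k l))).symm
      have e2 : (∑ k : Fin j, ∑ l : Fin n, t (Function.update I k l) ^ 2) =
          ∑ p : Fin j × Fin n, t (Function.update I p.1 p.2) ^ 2 :=
        (Fintype.sum_prod_type' (fun k l => t (Function.update I k l) ^ 2)).symm
      rw [e1, e2, ← sq]
      have e3 := sq_sum_le_card_mul_sum_sq (s := (Finset.univ : Finset (Fin j × Fin n)))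
        (f := fun p => A (I p.1) p.2 * t (Function.update I p.1 p.2))
      have e4 : ((Finset.univ : Finset (Fin j × Fin n)).card : ℝ) = j * n := by
        rw [Finset.card_univ, Fintype.card_prod, Fintype.card_fin, Fintype.card_fin]
        push_cast
        ring
      rw [e4] at e3
      have e5 : ∑ p : Fin j × Fin n, (A (I p.1) p.2 * t (Function.update I p.1 p.2)) ^ 2 ≤
          C ^ 2 * ∑ p : Fin j × Fin n, t (Function.update I p.1 p.2) ^ 2 := by
        rw [Finset.mul_sum]
        refine Finset.sum_le_sum fun p _ => ?_
        rw [mul_pow]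
        exact mul_le_mul_of_nonneg_right (hsq _ _) (sq_nonneg _)
      have e6 : (0 : ℝ) ≤ (j : ℝ) * n := by positivity
      have e7 := mul_le_mul_of_nonneg_left e5 e6
      refine e3.trans (e7.trans (le_of_eq ?_))
      ring
    have hsum : ∑ I : Fin j → Fin n, ∑ k, ∑ l, t (Function.update I k l) ^ 2 =
        (j * n) * ∑ I, t I * t I := by
      rw [Finset.sum_comm]
      have h5 : ∀ k : Fin j, ∑ I : Fin j → Fin n, ∑ l, t (Function.update I k l) ^ 2 =
          n * ∑ I, t I * t I := by
        intro k
        have h6 := inv_sum k (fun (I : Fin j → Fin n) (_ : Fin n) => t I ^ 2)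
        rw [← h6, Finset.mul_sum]
        refine Finset.sum_congr rfl fun I _ => ?_
        rw [Finset.sum_const, Finset.card_univ, Fintype.card_fin, nsmul_eq_mul, sq]
      rw [Finset.sum_congr rfl fun k _ => h5 k, Finset.sum_const, Finset.card_univ,
        Fintype.card_fin, nsmul_eq_mul, mul_assoc]
    unfold q2 ipt
    rw [← mul_div_assoc]
    have hfac : (0 : ℝ) ≤ (j.factorial : ℝ) := by positivity
    refine div_le_div_of_nonneg_right ?_ hfac
    calc ∑ I, rho A t I * rho A t I
        ≤ ∑ I : Fin j → Fin n, (j * n * C ^ 2) * ∑ k, ∑ l, t (Function.update I k l) ^ 2 :=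
          Finset.sum_le_sum fun I _ => hI I
      _ = (j * n * C ^ 2) * ((j * n) * ∑ I, t I * t I) := by
          rw [← Finset.mul_sum, hsum]
      _ = (j * n * C) ^ 2 * ∑ I, t I * t I := by ring

end Pool.Agent.Helper33.DSH
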